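import Pool.Agent.H47.ST.Targets

/-!
# Row RAI of the board stk_modules: a placement which is not a home placement raises a block
-/

namespace Pool.Agent.H38.STK

open Finset Pool.Agent.H47.ST

theorem rai_app (A B : List (List ℕ)) : tsum (A ++ B) = tsum A + tsum B := by
  simp [Pool.Agent.H47.ST.tsum]

theorem rai_cons (B : List ℕ) (st : List (List ℕ)) : tsum (B :: st) = top 0 B + tsum st := by
  simp [Pool.Agent.H47.ST.tsum]

theorem rai_tops (B : List ℕ) (st : List (List ℕ)) :
    tops (B :: st) = max (top 0 B) (tops st) := by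
  simp [tops]

theorem rai_up (h1 : T_TOP) (e h : ℕ) (B : List ℕ) : top 0 B ≤ top 0 (up e h B) := by
  rw [h1.2.2.2 e h B]
  split <;> omega

theorem rai_upR (h1 : T_TOP) (e : ℕ) (st : List (List ℕ)) :
    ∀ h, tsum st ≤ tsum (upR e h st) := by
  induction st with
  | nil => intro h; simp [upR]
  | cons B st ih =>
    intro h
    rw [upR, rai_cons, rai_cons]
    exact Nat.add_le_add (rai_up h1 e h B) (ih _)

theorem rai_mir (h1 : T_TOP) (st : List (List ℕ)) : tsum (mir st) = tsum st := by
  induction st with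
  | nil => rfl
  | cons B st ih =>
    have h2 : mir (B :: st) = mir st ++ [B.reverse] := by simp [mir]
    rw [h2, rai_app, ih, rai_cons, rai_cons, h1.2.2.1 B]
    simp [Pool.Agent.H47.ST.tsum]
    omega

theorem rai_upL (h1 : T_TOP) (e h : ℕ) (st : List (List ℕ)) : tsum st ≤ tsum (upL e h st) := by
  unfold upL
  rw [rai_mir h1]
  calc tsum st = tsum (mir st) := (rai_mir h1 st).symm
    _ ≤ _ := rai_upR h1 e (mir st) h

theorem rai_ins (h1 : T_TOP) (e : ℕ) (X Y : List ℕ) :
    top 0 X ≤ top 0 (ins e X Y) ∧ top 0 (up e 0 Y) ≤ top 0 (ins e X Y) ∧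
      1 ≤ top 0 (ins e X Y) := by
  have h2 : top 0 (ins e X Y) = max (top 0 (up (1 - e) 0 X.reverse))
      (max 1 (top 0 (up e 0 Y))) := by
    unfold ins
    rw [h1.2.1, h1.2.2.1]
    congr 1
    rw [top]
    rw [h1.1]
    norm_num
  have h3 := rai_up h1 (1 - e) 0 X.reverse
  rw [h1.2.2.1 X] at h3
  rw [h2]
  refine ⟨h3.trans (le_max_left _ _), (le_max_right _ _).trans (le_max_right _ _),
    (le_max_left _ _).trans (le_max_right _ _)⟩

theorem rai_scan (h1 : T_TOP) (e : ℕ) (C Rs : List (List ℕ)) : ∀ h, h < tops Rs →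
    (tops Rs - 1) % 2 = e → tsum (Rs ++ C) + 1 ≤ tsum (upR e h (Rs ++ C)) := by
  induction Rs with
  | nil =>
    intro h hh
    simp [tops] at hh
  | cons B Rs ih =>
    intro h hh he
    rw [rai_tops] at hh he
    rw [List.cons_append, upR, rai_cons, rai_cons]
    rcases le_or_gt (tops Rs) (top 0 B) with h2 | h2
    · rw [max_eq_left h2] at hh he
      have h3 : top 0 (up e h B) = top 0 B + 1 := by
        rw [h1.2.2.2 e h B, if_pos ⟨hh, he⟩]
      have h4 := rai_upR h1 e (Rs ++ C) (top h B)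
      omega
    · rw [max_eq_right h2.le] at hh he
      have h3 := rai_up h1 e h B
      have h4 := ih (top h B) (by rw [h1.1]; exact max_lt hh h2) he
      omega

theorem pf_RAI (h1 : T_TOP) : T_RAI := by
  intro e Ls X Y Rs C he hQ hh
  unfold place
  rw [rai_app Ls, rai_cons, rai_app (upL (1 - e) (top 0 X) Ls), rai_cons]
  have hL := rai_upL h1 (1 - e) (top 0 X) Ls
  have hR := rai_upR h1 e (Rs ++ C) (top 0 Y)
  obtain ⟨i1, i2, i3⟩ := rai_ins h1 e X Y
  have hXY := h1.2.1 X Y
  have hY := rai_up h1 e 0 Y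
  have hI : top 0 (X ++ Y) ≤ top 0 (ins e X Y) := by
    rw [hXY]
    exact max_le i1 (hY.trans i2)
  rcases lt_or_ge (top 0 Y) (tops Rs) with h2 | h2
  · have hne : Rs ≠ [] := by
      rintro rfl
      simp [tops] at h2
    have h3 := hQ (Ls ++ [X ++ Y]) Rs (by simp) hne
    have h4 := rai_scan h1 e C Rs (top 0 Y) h2 (by omega)
    omega
  · have h3 : top 0 X ≤ top 0 Y := by
      by_contra h4
      exact hh ⟨not_le.1 h4, h2⟩
    have h4 := hQ Ls ((X ++ Y) :: Rs) rfl (by simp)
    rw [rai_tops, hXY, max_eq_right h3, max_eq_left h2] at h4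
    rw [max_eq_right h3] at hXY
    have h5 : top 0 Y + 1 ≤ top 0 (ins e X Y) := by
      rcases Nat.eq_zero_or_pos (top 0 Y) with h6 | h6
      · rw [h6]
        exact i3
      · have h7 := h1.2.2.2 e 0 Y
        rw [if_pos ⟨h6, by omega⟩] at h7
        omega
    omega

end Pool.Agent.H38.STK
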